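import Mathlib

set_option autoImplicit false

/-! # The Walsh-Hadamard matrices -/

namespace Pool.Agent.W463.VB

open Finset

/-- The entry of the `2 ^ k × 2 ^ k` Walsh-Hadamard matrix: `(-1) ^ t`, where `t` is the number of
the positions among the lowest `k` at which both `x` and `y` have the binary digit `1`. -/
def had : ℕ → ℕ → ℕ → ℤ
  | 0, _, _ => 1
  | k + 1, x, y => had k (x / 2) (y / 2) * if x % 2 = 1 ∧ y % 2 = 1 then -1 else 1

lemma sum_range_two_mul (n : ℕ) (f : ℕ → ℤ) :
    ∑ y ∈ range (2 * n), f y = ∑ y ∈ range n, (f (2 * y) + f (2 * y + 1)) := by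
  induction n with
  | zero => simp
  | succ n ih =>
    rw [show 2 * (n + 1) = 2 * n + 1 + 1 by ring, Finset.sum_range_succ, Finset.sum_range_succ, ih,
      Finset.sum_range_succ]
    ring

lemma had_orth (k : ℕ) : ∀ x x', x < 2 ^ k → x' < 2 ^ k →
    ∑ y ∈ range (2 ^ k), had k x y * had k x' y = if x = x' then 2 ^ k else 0 := by
  induction k with
  | zero =>
    intro x x' hx hx'
    have h1 : x = 0 := by simpa using hx
    have h2 : x' = 0 := by simpa using hx'
    subst h1; subst h2
    simp [had]
  | succ k ih =>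
    intro x x' hx hx'
    rw [pow_succ, mul_comm (2 ^ k) 2, sum_range_two_mul]
    have hx2 : x / 2 < 2 ^ k := by
      rw [Nat.div_lt_iff_lt_mul (by norm_num)]; rwa [pow_succ] at hx
    have hx2' : x' / 2 < 2 ^ k := by
      rw [Nat.div_lt_iff_lt_mul (by norm_num)]; rwa [pow_succ] at hx'
    have h1 : ∀ y, had (k + 1) x (2 * y) * had (k + 1) x' (2 * y) +
        had (k + 1) x (2 * y + 1) * had (k + 1) x' (2 * y + 1) =
        (had k (x / 2) y * had k (x' / 2) y) *
          (1 + (if x % 2 = 1 then -1 else 1) * (if x' % 2 = 1 then -1 else 1)) := by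
      intro y
      have e1 : (2 * y) / 2 = y := by omega
      have e2 : (2 * y + 1) / 2 = y := by omega
      have e3 : (2 * y) % 2 = 0 := by omega
      have e4 : (2 * y + 1) % 2 = 1 := by omega
      simp only [had, e1, e2, e3, e4]
      simp only [zero_ne_one, and_false, if_false, and_true, mul_one]
      ring
    rw [Finset.sum_congr rfl fun y _ => h1 y, ← Finset.sum_mul, ih _ _ hx2 hx2']
    by_cases hxx : x = x'
    · subst hxx
      rw [if_pos rfl, if_pos rfl]
      split_ifs <;> ring
    · rw [if_neg hxx]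
      by_cases h2 : x / 2 = x' / 2
      · have h3 : x % 2 ≠ x' % 2 := by omega
        rw [if_pos h2]
        rcases Nat.mod_two_eq_zero_or_one x with h4 | h4 <;>
          rcases Nat.mod_two_eq_zero_or_one x' with h5 | h5
        · omega
        · rw [h4, h5]; simp
        · rw [h4, h5]; simp
        · omega
      · rw [if_neg h2, zero_mul]

/-- The explicit matrices: the Walsh-Hadamard matrix of order `2 ^ k`, where `k` is the integer
part of `log₂ n`, extended by the identity matrix. -/
def walsh (n : ℕ) (x y : Fin n) : ℤ :=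
  if (x : ℕ) < 2 ^ Nat.log 2 n ∧ (y : ℕ) < 2 ^ Nat.log 2 n then had (Nat.log 2 n) x y
  else if x = y then 1 else 0

/-- The determinant of the Walsh-Hadamard matrix over a normed field containing the rationals. -/
lemma norm_det_had (F : Type) [RCLike F] (k : ℕ) :
    ‖Matrix.det (Matrix.of fun a b : Fin (2 ^ k) => ((had k a b : ℤ) : F))‖ ^ 2 =
      ((2 : ℝ) ^ k) ^ (2 ^ k) := by
  set A : Matrix (Fin (2 ^ k)) (Fin (2 ^ k)) F := Matrix.of fun a b => ((had k a b : ℤ) : F) with hA
  have h1 : A * A.transpose = ((2 : F) ^ k) • (1 : Matrix (Fin (2 ^ k)) (Fin (2 ^ k)) F) := by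
    ext x x'
    rw [Matrix.mul_apply, Matrix.smul_apply, Matrix.one_apply]
    simp only [hA, Matrix.transpose_apply, Matrix.of_apply]
    have h2 := had_orth k x x' x.2 x'.2
    rw [Finset.sum_range] at h2
    have h3 : ∑ y : Fin (2 ^ k), ((had k x y : ℤ) : F) * ((had k x' y : ℤ) : F) =
        ((∑ y : Fin (2 ^ k), had k x y * had k x' y : ℤ) : F) := by
      push_cast
      rfl
    rw [h3, h2]
    by_cases hx : x = x'
    · subst hx
      rw [if_pos rfl, if_pos rfl]
      push_cast
      simp
    · rw [if_neg hx, if_neg (fun h => hx (Fin.ext h))]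
      simp
  have h2 := congrArg Matrix.det h1
  rw [Matrix.det_mul, Matrix.det_transpose, Matrix.det_smul, Matrix.det_one, mul_one,
    Fintype.card_fin] at h2
  have h3 := congrArg norm h2
  rw [norm_mul, norm_pow, norm_pow] at h3
  have h4 : ‖(2 : F)‖ = 2 := by
    have := RCLike.norm_natCast (K := F) 2
    simpa using this
  rw [h4] at h3
  rw [sq]
  exact h3

end Pool.Agent.W463.VB
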