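import Mathlib

set_option autoImplicit false

/-! # The volume lemma -/

namespace Pool.Agent.W463.VB

open Finset
open scoped NNReal

variable {κ : Type} [Fintype κ] [DecidableEq κ] {F : Type} [NormedField F]

/-- Every determinant with rows in the set is bounded by `C` times the product of the weights. -/
def Good (C : ℝ≥0) (S : Set ((κ → F) × ℝ≥0)) : Prop :=
  ∀ y : κ → (κ → F), ∀ p : κ → ℝ≥0, (∀ j, (y j, p j) ∈ S) →
    ‖Matrix.det (Matrix.of y)‖₊ ≤ C * ∏ j, p j

/-- The unit vectors with weight `1`. -/
def units : Set ((κ → F) × ℝ≥0) := {z | ∃ i, z = (Pi.single i 1, 1)}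

lemma Good.mono {C C' : ℝ≥0} {S S' : Set ((κ → F) × ℝ≥0)} (h : Good C S) (hC : C ≤ C')
    (hS : S' ⊆ S) : Good C' S' := fun y p hy =>
  (h y p (fun j => hS (hy j))).trans (mul_le_mul_left hC _)

lemma good_units : Good (1 : ℝ≥0) (units : Set ((κ → F) × ℝ≥0)) := by
  intro y p hy
  choose f hf using hy
  have hy' : ∀ j, y j = Pi.single (f j) 1 := fun j => congrArg Prod.fst (hf j)
  have hp : ∀ j, p j = 1 := fun j => congrArg Prod.snd (hf j)
  simp only [hp, Finset.prod_const_one, mul_one]
  by_cases hinj : Function.Injective f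
  · have hbij : Function.Bijective f := Finite.injective_iff_bijective.mp hinj
    set σ := Equiv.ofBijective f hbij with hσ
    have h1 : Matrix.of y = Matrix.submatrix (1 : Matrix κ κ F) σ id := by
      ext i j
      rw [Matrix.of_apply, hy', Matrix.submatrix_apply, Matrix.one_apply, Pi.single_apply]
      simp only [hσ, Equiv.ofBijective_apply, id]
      simp only [eq_comm]
    rw [h1, Matrix.det_permute, Matrix.det_one, mul_one]
    rcases Int.units_eq_one_or (Equiv.Perm.sign σ) with h | h
    · rw [h]; simp
    · rw [h]; simp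
  · rw [Function.Injective] at hinj
    push Not at hinj
    obtain ⟨i, j, hij, hne⟩ := hinj
    have h0 : Matrix.det (Matrix.of y) = 0 := by
      apply Matrix.det_zero_of_row_eq hne
      change y i = y j
      rw [hy', hy', hij]
    rw [h0, nnnorm_zero]
    exact zero_le

lemma Good.insert_zero {C : ℝ≥0} {S : Set ((κ → F) × ℝ≥0)} (h : Good C S) (P : ℝ≥0) :
    Good C (insert ((0 : κ → F), P) S) := by
  intro y p hy
  by_cases hall : ∀ j, (y j, p j) ∈ S
  · exact h y p hall
  · push Not at hall
    obtain ⟨j, hj⟩ := hall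
    have h1 : (y j, p j) = ((0 : κ → F), P) := by
      rcases hy j with h2 | h2
      · exact h2
      · exact absurd h2 hj
    have h2 : y j = 0 := congrArg Prod.fst h1
    have h0 : Matrix.det (Matrix.of y) = 0 := by
      apply Matrix.det_eq_zero_of_row_eq_zero j
      intro i
      rw [Matrix.of_apply, h2]
      rfl
    rw [h0, nnnorm_zero]
    exact zero_le

lemma Good.insert_smul {C : ℝ≥0} {S : Set ((κ → F) × ℝ≥0)} (h : Good C S)
    {u : κ → F} {p : ℝ≥0} (hu : (u, p) ∈ S) {α : F} {P : ℝ≥0} (hα : ‖α‖₊ * p ≤ P) :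
    Good C (insert (α • u, P) S) := by
  classical
  intro y r hy
  -- replace the new rows by `u`
  let y' : κ → (κ → F) := fun j => if (y j, r j) ∈ S then y j else u
  let r' : κ → ℝ≥0 := fun j => if (y j, r j) ∈ S then r j else p
  let β : κ → F := fun j => if (y j, r j) ∈ S then 1 else α
  have h1 : ∀ j, (y' j, r' j) ∈ S := by
    intro j
    simp only [y', r']
    by_cases hj : (y j, r j) ∈ S
    · rw [if_pos hj, if_pos hj]; exact hj
    · rw [if_neg hj, if_neg hj]; exact hu
  have h2 : ∀ j, y j = β j • y' j ∧ ‖β j‖₊ * r' j ≤ r j := by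
    intro j
    simp only [y', r', β]
    by_cases hj : (y j, r j) ∈ S
    · rw [if_pos hj, if_pos hj, if_pos hj, one_smul, nnnorm_one, one_mul]
      exact ⟨rfl, le_rfl⟩
    · rw [if_neg hj, if_neg hj, if_neg hj]
      rcases hy j with h3 | h3
      · have e1 : y j = α • u := congrArg Prod.fst h3
        have e2 : r j = P := congrArg Prod.snd h3
        rw [e1, e2]
        exact ⟨rfl, hα⟩
      · exact absurd h3 hj
  have h3 : Matrix.of y = Matrix.of (fun i j => β i * Matrix.of y' i j) := by
    ext i j
    have := congrFun (h2 i).1 j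
    simpa using this
  rw [h3, Matrix.det_mul_column, nnnorm_mul, nnnorm_prod]
  calc (∏ i, ‖β i‖₊) * ‖(Matrix.of y').det‖₊ ≤ (∏ i, ‖β i‖₊) * (C * ∏ i, r' i) :=
        mul_le_mul' le_rfl (h y' r' h1)
    _ = C * ∏ i, (‖β i‖₊ * r' i) := by rw [Finset.prod_mul_distrib]; ring
    _ ≤ C * ∏ i, r i := mul_le_mul' le_rfl (Finset.prod_le_prod' fun j _ => (h2 j).2)

lemma Good.insert_comb {C : ℝ≥0} {S : Set ((κ → F) × ℝ≥0)} (h : Good C S)
    {u v : κ → F} {p q : ℝ≥0} (hu : (u, p) ∈ S) (hv : (v, q) ∈ S) {α β : F} {P : ℝ≥0}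
    (hα : ‖α‖₊ * p ≤ P) (hβ : ‖β‖₊ * q ≤ P) :
    Good (2 * C) (insert (α • u + β • v, P) S) := by
  intro y r hy
  by_cases hall : ∀ j, (y j, r j) ∈ S
  · refine (h y r hall).trans ?_
    refine mul_le_mul_left ?_ _
    calc C = 1 * C := (one_mul C).symm
      _ ≤ 2 * C := mul_le_mul_left (by norm_num) C
  · push Not at hall
    obtain ⟨j, hj⟩ := hall
    have hnew : ∀ i, (y i, r i) ∉ S → y i = α • u + β • v ∧ r i = P := by
      intro i hi
      rcases hy i with h2 | h2
      · exact ⟨congrArg Prod.fst h2, congrArg Prod.snd h2⟩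
      · exact absurd h2 hi
    obtain ⟨hyj, hrj⟩ := hnew j hj
    by_cases hother : ∀ i, i ≠ j → (y i, r i) ∈ S
    · -- expand row `j`
      have hM : Matrix.of y = Matrix.updateRow (Matrix.of y) j (α • u + β • v) := by
        rw [← hyj]
        exact (Matrix.updateRow_eq_self (Matrix.of y) j).symm
      have key : ∀ (x : κ → F) (s : ℝ≥0), (x, s) ∈ S →
          ‖Matrix.det (Matrix.updateRow (Matrix.of y) j x)‖₊ ≤
            C * (s * ∏ i ∈ Finset.univ.erase j, r i) := by
        intro x s hx
        have h1 := h (Function.update y j x) (Function.update r j s) (by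
          intro i
          by_cases hi : i = j
          · subst hi; simpa using hx
          · simpa [Function.update_of_ne hi] using hother i hi)
        have h2 : Matrix.of (Function.update y j x) = Matrix.updateRow (Matrix.of y) j x := rfl
        rw [h2] at h1
        refine h1.trans (le_of_eq ?_)
        rw [← Finset.mul_prod_erase Finset.univ _ (Finset.mem_univ j), Function.update_self]
        congr 2
        refine Finset.prod_congr rfl fun i hi => ?_
        rw [Function.update_of_ne (Finset.ne_of_mem_erase hi)]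
      rw [hM, Matrix.det_updateRow_add, Matrix.det_updateRow_smul, Matrix.det_updateRow_smul]
      refine (nnnorm_add_le _ _).trans ?_
      rw [nnnorm_mul, nnnorm_mul, ← Finset.mul_prod_erase Finset.univ _ (Finset.mem_univ j), hrj]
      set R := ∏ i ∈ Finset.univ.erase j, r i with hR
      calc ‖α‖₊ * ‖(Matrix.updateRow (Matrix.of y) j u).det‖₊ +
            ‖β‖₊ * ‖(Matrix.updateRow (Matrix.of y) j v).det‖₊
          ≤ ‖α‖₊ * (C * (p * R)) + ‖β‖₊ * (C * (q * R)) :=
            add_le_add (mul_le_mul_right (key u p hu) _) (mul_le_mul_right (key v q hv) _)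
        _ = (‖α‖₊ * p) * (C * R) + (‖β‖₊ * q) * (C * R) := by ring
        _ ≤ P * (C * R) + P * (C * R) :=
            add_le_add (mul_le_mul_left hα _) (mul_le_mul_left hβ _)
        _ = 2 * C * (P * R) := by ring
    · push Not at hother
      obtain ⟨i, hij, hi⟩ := hother
      have h0 : Matrix.det (Matrix.of y) = 0 := by
        apply Matrix.det_zero_of_row_eq hij
        change y i = y j
        rw [(hnew i hi).1, hyj]
      rw [h0, nnnorm_zero]
      exact zero_le

lemma Good.insert_sum {ι : Type} {C : ℝ≥0} {S : Set ((κ → F) × ℝ≥0)} (h : Good C S)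
    (T : Finset ι) {u : ι → κ → F} {p : ι → ℝ≥0} (hu : ∀ t ∈ T, (u t, p t) ∈ S) {α : ι → F}
    {P : ℝ≥0} (hα : ∀ t ∈ T, ‖α t‖₊ * p t ≤ P) :
    Good (((max 1 T.card : ℕ) : ℝ≥0) * C) (insert (∑ t ∈ T, α t • u t, P) S) := by
  classical
  have hC : C ≤ ((max 1 T.card : ℕ) : ℝ≥0) * C := by
    calc C = 1 * C := (one_mul C).symm
      _ ≤ _ := mul_le_mul_left (by exact_mod_cast le_max_left 1 T.card) C
  intro y r hy
  by_cases hall : ∀ j, (y j, r j) ∈ S
  · exact (h y r hall).trans (mul_le_mul_left hC _)
  · push Not at hall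
    obtain ⟨j, hj⟩ := hall
    have hnew : ∀ i, (y i, r i) ∉ S → y i = ∑ t ∈ T, α t • u t ∧ r i = P := by
      intro i hi
      rcases hy i with h2 | h2
      · exact ⟨congrArg Prod.fst h2, congrArg Prod.snd h2⟩
      · exact absurd h2 hi
    obtain ⟨hyj, hrj⟩ := hnew j hj
    by_cases hother : ∀ i, i ≠ j → (y i, r i) ∈ S
    · have hM : Matrix.of y = Matrix.updateRow (Matrix.of y) j (∑ t ∈ T, α t • u t) := by
        rw [← hyj]
        exact (Matrix.updateRow_eq_self (Matrix.of y) j).symm
      have key : ∀ (x : κ → F) (s : ℝ≥0), (x, s) ∈ S →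
          ‖Matrix.det (Matrix.updateRow (Matrix.of y) j x)‖₊ ≤
            C * (s * ∏ i ∈ Finset.univ.erase j, r i) := by
        intro x s hx
        have h1 := h (Function.update y j x) (Function.update r j s) (by
          intro i
          by_cases hi : i = j
          · subst hi; simpa using hx
          · simpa [Function.update_of_ne hi] using hother i hi)
        have h2 : Matrix.of (Function.update y j x) = Matrix.updateRow (Matrix.of y) j x := rfl
        rw [h2] at h1
        refine h1.trans (le_of_eq ?_)
        rw [← Finset.mul_prod_erase Finset.univ _ (Finset.mem_univ j), Function.update_self]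
        congr 2
        refine Finset.prod_congr rfl fun i hi => ?_
        rw [Function.update_of_ne (Finset.ne_of_mem_erase hi)]
      set R := ∏ i ∈ Finset.univ.erase j, r i with hR
      have hsum : ∀ T' ⊆ T, ‖Matrix.det (Matrix.updateRow (Matrix.of y) j
          (∑ t ∈ T', α t • u t))‖₊ ≤ (T'.card : ℝ≥0) * (P * (C * R)) := by
        intro T'
        induction T' using Finset.induction_on with
        | empty =>
          intro _
          rw [Finset.sum_empty]
          have h0 : Matrix.det (Matrix.updateRow (Matrix.of y) j (0 : κ → F)) = 0 := by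
            apply Matrix.det_eq_zero_of_row_eq_zero j
            intro i
            rw [Matrix.updateRow_self]
            rfl
          rw [h0, nnnorm_zero]
          exact zero_le
        | insert t T' ht ih =>
          intro hT'
          rw [Finset.sum_insert ht, Matrix.det_updateRow_add, Matrix.det_updateRow_smul,
            Finset.card_insert_of_notMem ht]
          refine (nnnorm_add_le _ _).trans ?_
          rw [nnnorm_mul]
          have h1 := ih ((Finset.subset_insert _ _).trans hT')
          have htT : t ∈ T := hT' (Finset.mem_insert_self _ _)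
          calc ‖α t‖₊ * ‖(Matrix.updateRow (Matrix.of y) j (u t)).det‖₊ +
                ‖(Matrix.updateRow (Matrix.of y) j (∑ t ∈ T', α t • u t)).det‖₊
              ≤ ‖α t‖₊ * (C * (p t * R)) + (T'.card : ℝ≥0) * (P * (C * R)) :=
                add_le_add (mul_le_mul_right (key (u t) (p t) (hu t htT)) _) h1
            _ = (‖α t‖₊ * p t) * (C * R) + (T'.card : ℝ≥0) * (P * (C * R)) := by ring
            _ ≤ P * (C * R) + (T'.card : ℝ≥0) * (P * (C * R)) :=
                add_le_add_left (mul_le_mul_left (hα t htT) _) _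
            _ = _ := by push_cast; ring
      rw [hM]
      refine (hsum T le_rfl).trans ?_
      rw [← Finset.mul_prod_erase Finset.univ _ (Finset.mem_univ j), hrj, ← hR]
      have h5 : (T.card : ℝ≥0) ≤ ((max 1 T.card : ℕ) : ℝ≥0) := by
        exact_mod_cast le_max_right 1 T.card
      calc (T.card : ℝ≥0) * (P * (C * R)) ≤ ((max 1 T.card : ℕ) : ℝ≥0) * (P * (C * R)) :=
            mul_le_mul_left h5 _
        _ = _ := by ring
    · push Not at hother
      obtain ⟨i, hij, hi⟩ := hother
      have h0 : Matrix.det (Matrix.of y) = 0 := by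
        apply Matrix.det_zero_of_row_eq hij
        change y i = y j
        rw [(hnew i hi).1, hyj]
      rw [h0, nnnorm_zero]
      exact zero_le

end Pool.Agent.W463.VB
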