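import Mathlib
import Pool.Agent.H633R2.LC.Defs
import Pool.Agent.W463.VB.Vol

set_option autoImplicit false

/-! # Linear circuits with limited cancellation -/

namespace Pool.Agent.W463.VB

open Finset H633LC
open scoped NNReal

variable {F : Type} [NormedField F] {n r : ℕ}

/-- The mass of the variable `x_j` at the node `v`: the sum, over all paths from the sources
carrying `x_j` to `v`, of the product of the absolute values of the scalars along the path. -/
noncomputable def pathMass (C : LinCircuit F n r) (j : Fin n) (v : C.V) : ℝ≥0 :=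
  match C.label v with
  | some i => if i = j then 1 else 0
  | none => ∑ u : {u : C.V // (u, v) ∈ C.E}, ‖C.wt u.1 v‖₊ * pathMass C j u.1
termination_by C.rank v
decreasing_by exact C.acyclic _ _ u.2

variable (C : LinCircuit F n r)

lemma pathMass_source (j : Fin n) {v : C.V} {i : Fin n} (h : C.label v = some i) :
    pathMass C j v = if i = j then 1 else 0 := by
  rw [pathMass]
  split
  · rename_i h'; rw [h] at h'; injection h' with h'; rw [h']
  · rename_i h'; rw [h] at h'; cases h'

/-- The in-neighbours. -/
def inn (v : C.V) : Finset C.V := Finset.univ.filter (fun u => (u, v) ∈ C.E)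

lemma mem_inn {u v : C.V} : u ∈ inn C v ↔ (u, v) ∈ C.E := by simp [inn]

lemma pathMass_gate (j : Fin n) {v : C.V} (h : C.label v = none) :
    pathMass C j v = ∑ u ∈ inn C v, ‖C.wt u v‖₊ * pathMass C j u := by
  rw [pathMass]
  split
  · rename_i h'; rw [h] at h'; cases h'
  · rw [inn, ← Finset.sum_subtype_of_mem (f := fun u => ‖C.wt u v‖₊ * pathMass C j u)
      (p := fun u => (u, v) ∈ C.E) (s := Finset.univ.filter (fun u => (u, v) ∈ C.E))
      (fun x hx => (Finset.mem_filter.mp hx).2)]
    refine Finset.sum_congr ?_ fun _ _ => rfl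
    ext x
    simp [x.2]

lemma sum_card_inn : ∑ v, (inn C v).card = C.E.card := by
  classical
  have h1 : C.E = Finset.univ.biUnion (fun v => (inn C v).image (fun u => (u, v))) := by
    ext ⟨u, v⟩
    simp only [Finset.mem_biUnion, Finset.mem_univ, true_and, Finset.mem_image, mem_inn,
      Prod.mk.injEq]
    constructor
    · intro h
      exact ⟨v, u, h, rfl, rfl⟩
    · rintro ⟨v', u', h, rfl, rfl⟩
      exact h
  conv_rhs => rw [h1]
  rw [Finset.card_biUnion]
  · refine Finset.sum_congr rfl fun v _ => ?_
    rw [Finset.card_image_of_injective]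
    intro a b hab
    exact congrArg Prod.fst hab
  · intro v _ v' _ hne
    rw [Function.onFun, Finset.disjoint_left]
    rintro ⟨a, b⟩ h2 h3
    simp only [Finset.mem_image, Prod.mk.injEq] at h2 h3
    obtain ⟨_, _, _, hb⟩ := h2
    obtain ⟨_, _, _, hb'⟩ := h3
    exact hne (hb.trans hb'.symm)

section minor

variable {s : ℕ} (q : Fin s → Fin n)

/-- The coordinates in the chosen columns. -/
def xq (v : C.V) : Fin s → F := fun b => C.form v (q b)

/-- The largest mass. -/
noncomputable def pq (v : C.V) : ℝ≥0 := Finset.univ.sup (fun b => pathMass C (q b) v)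

/-- The available vectors. -/
def avl (D : Finset C.V) : Set ((Fin s → F) × ℝ≥0) :=
  units ∪ {z | ∃ v ∈ D, z = (xq C q v, pq C q v)}

/-- The factor of a node. -/
def fac (v : C.V) : ℕ := max 1 (inn C v).card

theorem good_avl (hq : Function.Injective q) (N : ℕ) : ∀ D : Finset C.V, D.card = N →
    (∀ v ∈ D, ∀ u, (u, v) ∈ C.E → u ∈ D) →
    Good (((∏ v ∈ D, fac C v : ℕ) : ℝ≥0)) (avl C q D) := by
  classical
  induction N with
  | zero =>
    intro D hD _
    rw [Finset.card_eq_zero] at hD
    subst hD
    rw [Finset.prod_empty, Nat.cast_one]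
    refine good_units.mono le_rfl ?_
    rintro z (h | ⟨v, hv, _⟩)
    · exact h
    · simp at hv
  | succ N ih =>
    intro D hD hcl
    have hne : D.Nonempty := by rw [← Finset.card_pos]; omega
    obtain ⟨v, hv, hmax⟩ := Finset.exists_max_image D C.rank hne
    have hD' : (D.erase v).card = N := by rw [Finset.card_erase_of_mem hv, hD]; rfl
    have hin : ∀ u, (u, v) ∈ C.E → u ∈ D.erase v := by
      intro u hu
      rw [Finset.mem_erase]
      refine ⟨?_, hcl v hv u hu⟩
      rintro rfl
      exact lt_irrefl _ (C.acyclic _ _ hu)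
    have hcl' : ∀ x ∈ D.erase v, ∀ u, (u, x) ∈ C.E → u ∈ D.erase v := by
      intro x hx u hu
      rw [Finset.mem_erase] at hx ⊢
      refine ⟨?_, hcl x hx.2 u hu⟩
      rintro rfl
      have h1 := C.acyclic _ _ hu
      have h2 := hmax x hx.2
      omega
    have ih' := ih _ hD' hcl'
    have hins : avl C q D ⊆ insert (xq C q v, pq C q v) (avl C q (D.erase v)) := by
      rintro z (h | ⟨x, hx, hz⟩)
      · exact Or.inr (Or.inl h)
      · by_cases hxv : x = v
        · left; rw [hz, hxv]
        · exact Or.inr (Or.inr ⟨x, Finset.mem_erase.mpr ⟨hxv, hx⟩, hz⟩)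
    have hprod : (∏ x ∈ D, fac C x) = fac C v * ∏ x ∈ D.erase v, fac C x :=
      (Finset.mul_prod_erase D _ hv).symm
    have hfac1 : 1 ≤ fac C v := le_max_left _ _
    cases hl : C.label v with
    | some j =>
      have hC : ((∏ x ∈ D.erase v, fac C x : ℕ) : ℝ≥0) ≤ ((∏ x ∈ D, fac C x : ℕ) : ℝ≥0) := by
        rw [hprod]
        exact_mod_cast Nat.le_mul_of_pos_left _ hfac1
      by_cases hj : ∃ b, q b = j
      · obtain ⟨b, rfl⟩ := hj
        have hx : xq C q v = (1 : F) • Pi.single b 1 := by
          funext b'
          rw [one_smul, xq, C.form_source v _ hl, Pi.single_apply, Pi.single_apply]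
          simp only [hq.eq_iff]
        have hp : ‖(1 : F)‖₊ * 1 ≤ pq C q v := by
          rw [nnnorm_one, one_mul]
          refine le_trans ?_ (Finset.le_sup (f := fun b => pathMass C (q b) v)
            (Finset.mem_univ b))
          rw [pathMass_source C _ hl, if_pos rfl]
        have h1 := ih'.insert_smul (Or.inl ⟨b, rfl⟩ : ((Pi.single b 1 : Fin s → F), (1 : ℝ≥0)) ∈
          avl C q (D.erase v)) hp
        rw [← hx] at h1
        exact h1.mono hC hins
      · have hx : xq C q v = 0 := by
          funext b'
          rw [xq, C.form_source v _ hl, Pi.single_apply, if_neg]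
          · rfl
          · intro h; exact hj ⟨b', h⟩
        have h1 := ih'.insert_zero (pq C q v)
        rw [← hx] at h1
        exact h1.mono hC hins
    | none =>
      have hx : xq C q v = ∑ u ∈ inn C v, C.wt u v • xq C q u := by
        funext b
        rw [xq, C.form_gate v hl, Finset.sum_apply]
        rfl
      have h1 := ih'.insert_sum (inn C v) (u := fun u => xq C q u) (p := fun u => pq C q u)
        (fun u hu => Or.inr ⟨u, hin u ((mem_inn C).mp hu), rfl⟩) (α := fun u => C.wt u v)
        (P := pq C q v) (by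
          intro u hu
          rw [pq, NNReal.mul_finset_sup]
          refine Finset.sup_le fun b _ => ?_
          refine le_trans ?_ (Finset.le_sup (f := fun b => pathMass C (q b) v)
            (Finset.mem_univ b))
          rw [pathMass_gate C _ hl]
          exact Finset.single_le_sum (f := fun u => ‖C.wt u v‖₊ * pathMass C (q b) u)
            (fun _ _ => zero_le) hu)
      rw [← hx] at h1
      refine h1.mono (le_of_eq ?_) hins
      rw [hprod, Nat.cast_mul]
      rfl

lemma fac_pow_le (v : C.V) : fac C v ^ 5 ≤ 4 ^ (1 + (inn C v).card) := by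
  unfold fac
  set d := (inn C v).card
  clear_value d
  rcases Nat.eq_zero_or_pos d with h | h
  · subst h; norm_num
  · rw [max_eq_right h]
    rcases Nat.lt_or_ge d 4 with h4 | h4
    · interval_cases d <;> norm_num
    · induction d, h4 using Nat.le_induction with
      | base => norm_num
      | succ d hd ih =>
        have ih' := ih (by omega)
        have h5 : (d + 1) ^ 5 ≤ 4 * d ^ 5 := by
          obtain ⟨e, rfl⟩ : ∃ e, d = 4 + e := ⟨d - 4, by omega⟩
          ring_nf
          nlinarith [Nat.zero_le e, Nat.zero_le (e ^ 2), Nat.zero_le (e ^ 3), Nat.zero_le (e ^ 4),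
            Nat.zero_le (e ^ 5)]
        calc (d + 1) ^ 5 ≤ 4 * d ^ 5 := h5
          _ ≤ 4 * 4 ^ (1 + d) := Nat.mul_le_mul_left 4 ih'
          _ = 4 ^ (1 + (d + 1)) := by ring

/-- The volume bound for linear circuits. -/
theorem minor_le (hq : Function.Injective q) (p : Fin s → Fin r) :
    ‖Matrix.det (Matrix.of fun a b => C.form (C.out (p a)) (q b))‖₊ ^ 5 ≤
      4 ^ C.size * (∏ a, pq C q (C.out (p a))) ^ 5 := by
  classical
  have h := good_avl C q hq _ Finset.univ rfl (fun _ _ _ _ => Finset.mem_univ _)
    (fun a => xq C q (C.out (p a))) (fun a => pq C q (C.out (p a)))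
    (fun a => Or.inr ⟨C.out (p a), Finset.mem_univ _, rfl⟩)
  have h1 : (∏ v, fac C v) ^ 5 ≤ 4 ^ C.size := by
    rw [← Finset.prod_pow]
    refine (Finset.prod_le_prod' fun v _ => fac_pow_le C v).trans (le_of_eq ?_)
    rw [Finset.prod_pow_eq_pow_sum, Finset.sum_add_distrib, sum_card_inn]
    congr 1
    rw [Finset.sum_const, smul_eq_mul, mul_one, Finset.card_univ]
    rfl
  have h2 := pow_le_pow_left₀ zero_le h 5
  rw [mul_pow] at h2
  refine h2.trans (mul_le_mul_left ?_ _)
  exact_mod_cast h1

end minor

end Pool.Agent.W463.VB
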