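import Mathlib
import Pool.Agent.W463.VB.LinC
import Pool.Agent.W463.VB.Had

set_option autoImplicit false

/-! # Linear circuits: the explicit family -/

namespace Pool.Agent.W463.VB

open Finset H633LC
open scoped NNReal

/-- The volume bound in terms of any bound for the masses. -/
theorem lin_general {F : Type} [NormedField F] {n : ℕ} (C : LinCircuit F n n)
    (A : Fin n → Fin n → F) (hC : C.Computes A) {s : ℕ} (p q : Fin s → Fin n)
    (hq : Function.Injective q) (K : Fin s → ℝ)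
    (hK : ∀ a b, (pathMass C (q b) (C.out (p a)) : ℝ) ≤ K a) :
    ‖Matrix.det (Matrix.of fun a b => A (p a) (q b))‖ ^ 5 ≤ 4 ^ C.size * (∏ a, K a) ^ 5 := by
  have h := minor_le C q hq p
  have hA : (fun a b => C.form (C.out (p a)) (q b)) = fun a b => A (p a) (q b) := by
    funext a b
    exact hC _ _
  rw [hA, ← NNReal.coe_le_coe] at h
  push_cast at h
  refine h.trans (mul_le_mul_of_nonneg_left ?_ (by positivity))
  refine pow_le_pow_left₀ (Finset.prod_nonneg fun _ _ => NNReal.coe_nonneg _) ?_ 5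
  refine Finset.prod_le_prod (fun _ _ => NNReal.coe_nonneg _) fun a _ => ?_
  have hne : (Finset.univ : Finset (Fin s)).Nonempty := ⟨a, Finset.mem_univ _⟩
  obtain ⟨b, _, hb⟩ := Finset.exists_mem_eq_sup Finset.univ hne
    (fun b => pathMass C (q b) (C.out (p a)))
  rw [pq, hb]
  exact hK a b

/-- The Walsh-Hadamard family. -/
theorem lin_walsh {F : Type} [RCLike F] {n : ℕ} (hn : 1 ≤ n) (C : LinCircuit F n n)
    (hC : C.Computes (fun x y => ((walsh n x y : ℤ) : F))) (ε : ℝ)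
    (hK : ∀ i j, (pathMass C j (C.out i) : ℝ) ≤ (n : ℝ) ^ (1 / 2 - ε)) :
    5 / 4 * n * (ε * Real.logb 2 n - 1 / 2) ≤ C.size := by
  set k := Nat.log 2 n with hk
  have hkn : 2 ^ k ≤ n := Nat.pow_log_le_self 2 (by omega)
  have hkn' : n < 2 ^ (k + 1) := Nat.lt_pow_succ_log_self (by norm_num) n
  have hn0 : (0 : ℝ) < n := by exact_mod_cast hn
  set q : Fin (2 ^ k) → Fin n := Fin.castLE hkn with hq
  have h := lin_general C _ hC q q (Fin.castLE_injective hkn)
    (fun _ => (n : ℝ) ^ (1 / 2 - ε)) (fun a b => hK _ _)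
  have hA : (fun a b : Fin (2 ^ k) => ((walsh n (q a) (q b) : ℤ) : F)) =
      fun a b : Fin (2 ^ k) => ((had k a b : ℤ) : F) := by
    funext a b
    rw [walsh, if_pos ⟨a.2, b.2⟩]
    rfl
  rw [hA] at h
  have hdet := norm_det_had F k
  set X := ‖Matrix.det (Matrix.of fun a b : Fin (2 ^ k) => ((had k a b : ℤ) : F))‖ with hX
  have hX0 : 0 ≤ X := norm_nonneg _
  rw [Finset.prod_const, Finset.card_univ, Fintype.card_fin] at h
  have h2 : (((2 : ℝ) ^ k) ^ (2 ^ k)) ^ 5 ≤ (4 ^ C.size * (((n : ℝ) ^ (1 / 2 - ε)) ^ 2 ^ k) ^ 5) ^ 2 := by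
    rw [← hdet]
    calc (X ^ 2) ^ 5 = (X ^ 5) ^ 2 := by ring
      _ ≤ _ := pow_le_pow_left₀ (by positivity) h 2
  have hpos : 0 < (n : ℝ) ^ (1 / 2 - ε) := Real.rpow_pos_of_pos hn0 _
  have h3 := Real.logb_le_logb_of_le (b := 2) (by norm_num) (by positivity) h2
  rw [Real.logb_pow, Real.logb_pow, Real.logb_pow, Real.logb_pow,
    Real.logb_mul (by positivity) (by positivity), Real.logb_pow, Real.logb_pow, Real.logb_pow,
    Real.logb_rpow_eq_mul_logb_of_pos hn0, Real.logb_self_eq_one (by norm_num)] at h3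
  have h4 : Real.logb 2 4 = 2 := by
    rw [show (4 : ℝ) = 2 ^ (2 : ℝ) by norm_num, Real.logb_rpow (by norm_num) (by norm_num)]
  rw [h4] at h3
  push_cast at h3
  set L := Real.logb 2 n with hL
  have hkL : L ≤ k + 1 := by
    rw [hL, Real.logb_le_iff_le_rpow (by norm_num) hn0]
    have h5 : (n : ℝ) ≤ 2 ^ (k + 1) := by exact_mod_cast hkn'.le
    have h6 : (2 : ℝ) ^ ((k : ℝ) + 1) = 2 ^ (k + 1) := by
      rw [← Real.rpow_natCast]; push_cast; rfl
    rw [h6]; exact h5
  set R : ℝ := 2 ^ k with hR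
  have hR0 : 0 < R := by positivity
  -- `5 * (R * k) ≤ 2 * (2 * size + 5 * (R * ((1/2 - ε) * L)))`
  have h7 : 5 / 2 * R * (ε * L - 1 / 2) ≤ C.size := by
    have h8 : R * L ≤ R * (k + 1) := mul_le_mul_of_nonneg_left hkL hR0.le
    nlinarith
  have hRn : (n : ℝ) / 2 ≤ R := by
    have h9 : (n : ℝ) < 2 ^ (k + 1) := by exact_mod_cast hkn'
    rw [pow_succ] at h9
    linarith
  rcases le_or_gt 0 (ε * L - 1 / 2) with h8 | h8
  · refine le_trans ?_ h7
    have : 5 / 4 * (n : ℝ) ≤ 5 / 2 * R := by linarith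
    exact mul_le_mul_of_nonneg_right this h8
  · have h9 : (0 : ℝ) ≤ C.size := Nat.cast_nonneg _
    nlinarith

end Pool.Agent.W463.VB
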