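import Mathlib

set_option autoImplicit false

/-! # A matrix with unimodular entries and large determinant -/

namespace Pool.Agent.W463.VB

open Finset

/-- The Fourier matrix. -/
theorem exists_flat (m : ℕ) (hm : 1 ≤ m) : ∃ A : Matrix (Fin m) (Fin m) ℂ,
    (∀ i j, ‖A i j‖ = 1) ∧ ‖A.det‖ ^ 2 = (m : ℝ) ^ m := by
  set ζ : ℂ := Complex.exp (2 * Real.pi * Complex.I / m) with hζ
  have hprim : IsPrimitiveRoot ζ m := Complex.isPrimitiveRoot_exp m (by omega)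
  have hnorm : ‖ζ‖ = 1 := hprim.norm'_eq_one (by omega)
  have hζ0 : ζ ≠ 0 := by
    intro h; rw [h, norm_zero] at hnorm; exact zero_ne_one hnorm
  have hconj : (starRingEnd ℂ) ζ = ζ⁻¹ := by
    rw [Complex.inv_def, Complex.normSq_eq_norm_sq, hnorm]
    simp
  let A : Matrix (Fin m) (Fin m) ℂ := fun p q => ζ ^ ((p : ℕ) * (q : ℕ))
  let B : Matrix (Fin m) (Fin m) ℂ := fun p q => (ζ⁻¹) ^ ((p : ℕ) * (q : ℕ))
  have hAB : A * B = (m : ℂ) • (1 : Matrix (Fin m) (Fin m) ℂ) := by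
    ext p p'
    rw [Matrix.mul_apply, Matrix.smul_apply, Matrix.one_apply]
    have e1 : ∀ q : Fin m, A p q * B q p' = (ζ ^ (p : ℕ) * (ζ⁻¹) ^ (p' : ℕ)) ^ (q : ℕ) := by
      intro q
      simp only [A, B]
      rw [mul_pow, ← pow_mul, ← pow_mul, mul_comm (q : ℕ) (p' : ℕ)]
    rw [Finset.sum_congr rfl fun q _ => e1 q,
      Fin.sum_univ_eq_sum_range (fun q => (ζ ^ (p : ℕ) * (ζ⁻¹) ^ (p' : ℕ)) ^ q) m]
    by_cases hp : p = p'
    · subst hp
      have : ζ ^ (p : ℕ) * (ζ⁻¹) ^ (p : ℕ) = 1 := by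
        rw [← mul_pow, mul_inv_cancel₀ hζ0, one_pow]
      rw [if_pos rfl, this]
      simp
    · rw [if_neg hp, smul_zero]
      have hr : ζ ^ (p : ℕ) * (ζ⁻¹) ^ (p' : ℕ) ≠ 1 := by
        intro h
        have h1 : ζ ^ (p : ℕ) = ζ ^ (p' : ℕ) := by
          have h2 : ζ ^ (p' : ℕ) ≠ 0 := pow_ne_zero _ hζ0
          rw [inv_pow] at h
          field_simp at h
          exact h
        exact hp (Fin.ext (hprim.pow_inj p.2 p'.2 h1))
      have hm' : (ζ ^ (p : ℕ) * (ζ⁻¹) ^ (p' : ℕ)) ^ m = 1 := by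
        rw [mul_pow, ← pow_mul, ← pow_mul, mul_comm (p : ℕ), mul_comm (p' : ℕ), pow_mul, pow_mul,
          inv_pow, hprim.pow_eq_one]
        simp
      have hg := mul_neg_geom_sum (ζ ^ (p : ℕ) * (ζ⁻¹) ^ (p' : ℕ)) m
      rw [hm', sub_self] at hg
      rcases mul_eq_zero.mp hg with h | h
      · exact absurd (sub_eq_zero.mp h).symm hr
      · exact h
  have hB : B = A.map (starRingEnd ℂ) := by
    ext p q
    change (ζ⁻¹) ^ ((p : ℕ) * (q : ℕ)) = (starRingEnd ℂ) (ζ ^ ((p : ℕ) * (q : ℕ)))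
    rw [map_pow, hconj]
  refine ⟨A, fun i j => ?_, ?_⟩
  · change ‖ζ ^ ((i : ℕ) * (j : ℕ))‖ = 1
    rw [norm_pow, hnorm, one_pow]
  · have h1 : A.det * B.det = (m : ℂ) ^ m := by
      rw [← Matrix.det_mul, hAB, Matrix.det_smul, Matrix.det_one, mul_one, Fintype.card_fin]
    have h2 : ‖B.det‖ = ‖A.det‖ := by
      have h3 : B.det = (starRingEnd ℂ) A.det := by
        rw [hB]
        exact (RingHom.map_det (starRingEnd ℂ) A).symm
      rw [h3]
      exact Complex.norm_conj _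
    have h4 := congrArg norm h1
    rw [norm_mul, h2, norm_pow, Complex.norm_natCast] at h4
    rw [sq]
    exact h4

end Pool.Agent.W463.VB
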