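import Mathlib
import Pool.Agent.H691R2.MM.Coef
import Pool.Agent.W463.CT.Basic
import Pool.Agent.W463.VB.Vol

set_option autoImplicit false

/-! # The linear part of a circuit at a point -/

namespace Pool.Agent.W463.VB

open Finset MvPolynomial
open scoped NNReal
open Pool.Agent.H567.Nec Pool.Agent.H691R2.MM

universe u

variable {α : Type u} {κ : Type}

/-- The mass of a node over the variables `b_y` set to zero: the sum of the absolute values of the
terms, before cancellation, which contain no variable `b_y` (that is, `Sum.inr y`). -/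
noncomputable def freeMass (Φ : Circuit ℂ (α ⊕ κ)) (i : Fin Φ.N) : ℝ≥0 :=
  match _hi : Φ.node i with
  | .var x => Sum.elim (fun _ => 1) (fun _ => 0) x
  | .const c => ‖c‖₊
  | .add l r => freeMass Φ l + freeMass Φ r
  | .mul l r => freeMass Φ l * freeMass Φ r
termination_by i.1
decreasing_by
  · exact Φ.lt i l false (by rw [_hi]; rfl)
  · exact Φ.lt i r true (by rw [_hi]; rfl)
  · exact Φ.lt i l false (by rw [_hi]; rfl)
  · exact Φ.lt i r true (by rw [_hi]; rfl)

open Classical in
/-- The sum of the absolute values of the terms, before cancellation, which contain the variable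
`b_y = Sum.inr y` exactly once and no other variable `Sum.inr y'`. -/
noncomputable def linMass (Φ : Circuit ℂ (α ⊕ κ)) (y : κ) (i : Fin Φ.N) : ℝ≥0 :=
  match _hi : Φ.node i with
  | .var x => Sum.elim (fun _ => 0) (fun y' => if y' = y then 1 else 0) x
  | .const _ => 0
  | .add l r => linMass Φ y l + linMass Φ y r
  | .mul l r => linMass Φ y l * freeMass Φ r + freeMass Φ l * linMass Φ y r
termination_by i.1
decreasing_by
  · exact Φ.lt i l false (by rw [_hi]; rfl)
  · exact Φ.lt i r true (by rw [_hi]; rfl)
  · exact Φ.lt i l false (by rw [_hi]; rfl)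
  · exact Φ.lt i r true (by rw [_hi]; rfl)

section lemmas

variable (Φ : Circuit ℂ (α ⊕ κ))

lemma freeMass_var {i : Fin Φ.N} {x : α ⊕ κ} (h : Φ.node i = Node.var x) :
    freeMass Φ i = Sum.elim (fun _ => 1) (fun _ => 0) x := by
  rw [freeMass]
  split
  · rename_i h'; rw [h] at h'; injection h' with h'; rw [h']
  all_goals (rename_i h'; rw [h] at h'; cases h')

lemma freeMass_const {i : Fin Φ.N} {c : ℂ} (h : Φ.node i = Node.const c) :
    freeMass Φ i = ‖c‖₊ := by
  rw [freeMass]
  split
  · rename_i h'; rw [h] at h'; cases h'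
  · rename_i h'; rw [h] at h'; injection h' with h'; rw [h']
  all_goals (rename_i h'; rw [h] at h'; cases h')

lemma freeMass_add {i l r : Fin Φ.N} (h : Φ.node i = Node.add l r) :
    freeMass Φ i = freeMass Φ l + freeMass Φ r := by
  rw [freeMass]
  split
  · rename_i h'; rw [h] at h'; cases h'
  · rename_i h'; rw [h] at h'; cases h'
  · rename_i h'; rw [h] at h'; injection h' with h1 h2; rw [h1, h2]
  all_goals (rename_i h'; rw [h] at h'; cases h')

lemma freeMass_mul {i l r : Fin Φ.N} (h : Φ.node i = Node.mul l r) :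
    freeMass Φ i = freeMass Φ l * freeMass Φ r := by
  rw [freeMass]
  split
  · rename_i h'; rw [h] at h'; cases h'
  · rename_i h'; rw [h] at h'; cases h'
  · rename_i h'; rw [h] at h'; cases h'
  · rename_i h'; rw [h] at h'; injection h' with h1 h2; rw [h1, h2]

open Classical in
lemma linMass_var (y : κ) {i : Fin Φ.N} {x : α ⊕ κ} (h : Φ.node i = Node.var x) :
    linMass Φ y i = Sum.elim (fun _ => 0) (fun y' => if y' = y then 1 else 0) x := by
  rw [linMass]
  split
  · rename_i h'; rw [h] at h'; injection h' with h'; rw [h']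
  all_goals (rename_i h'; rw [h] at h'; cases h')

lemma linMass_const (y : κ) {i : Fin Φ.N} {c : ℂ} (h : Φ.node i = Node.const c) :
    linMass Φ y i = 0 := by
  rw [linMass]
  split
  · rename_i h'; rw [h] at h'; cases h'
  · rfl
  all_goals (rename_i h'; rw [h] at h'; cases h')

lemma linMass_add (y : κ) {i l r : Fin Φ.N} (h : Φ.node i = Node.add l r) :
    linMass Φ y i = linMass Φ y l + linMass Φ y r := by
  rw [linMass]
  split
  · rename_i h'; rw [h] at h'; cases h'
  · rename_i h'; rw [h] at h'; cases h'
  · rename_i h'; rw [h] at h'; injection h' with h1 h2; rw [h1, h2]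
  all_goals (rename_i h'; rw [h] at h'; cases h')

lemma linMass_mul (y : κ) {i l r : Fin Φ.N} (h : Φ.node i = Node.mul l r) :
    linMass Φ y i = linMass Φ y l * freeMass Φ r + freeMass Φ l * linMass Φ y r := by
  rw [linMass]
  split
  · rename_i h'; rw [h] at h'; cases h'
  · rename_i h'; rw [h] at h'; cases h'
  · rename_i h'; rw [h] at h'; cases h'
  · rename_i h'; rw [h] at h'; injection h' with h1 h2; rw [h1, h2]

end lemmas

section point

variable (Φ : Circuit ℂ (α ⊕ κ)) (a : α → ℂ)

/-- The point `(a, 0)`. -/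
noncomputable def pt : α ⊕ κ → ℂ := Sum.elim a (fun _ => 0)

/-- The value at `(a, 0)`. -/
noncomputable def cv (i : Fin Φ.N) : ℂ := eval (pt a) (Φ.value i)

/-- The derivatives at `(a, 0)` with respect to the variables `b_y`. -/
noncomputable def xv (i : Fin Φ.N) (y : κ) : ℂ := eval (pt a) (pderiv (Sum.inr y) (Φ.value i))

lemma cv_le (ha : ∀ x, ‖a x‖₊ ≤ 1) (i : Fin Φ.N) : ‖cv Φ a i‖₊ ≤ freeMass Φ i := by
  induction i using Pool.Agent.W463.CT.node_induction Φ with
  | hvar i x h =>
    rw [cv, value_var Φ h, freeMass_var Φ h, eval_X]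
    rcases x with x | x
    · simpa [pt] using ha x
    · simp [pt]
  | hconst i c h => rw [cv, value_const Φ h, freeMass_const Φ h, eval_C]
  | hadd i l r h hl hr =>
    rw [cv, value_add Φ h, freeMass_add Φ h, map_add]
    exact (nnnorm_add_le _ _).trans (add_le_add hl hr)
  | hmul i l r h hl hr =>
    rw [cv, value_mul Φ h, freeMass_mul Φ h, map_mul, nnnorm_mul]
    exact mul_le_mul' hl hr

lemma xv_add {i l r : Fin Φ.N} (h : Φ.node i = Node.add l r) :
    xv Φ a i = xv Φ a l + xv Φ a r := by
  funext y
  simp only [xv, value_add Φ h, map_add, Pi.add_apply]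

lemma xv_mul {i l r : Fin Φ.N} (h : Φ.node i = Node.mul l r) :
    xv Φ a i = cv Φ a r • xv Φ a l + cv Φ a l • xv Φ a r := by
  funext y
  simp only [xv, cv, value_mul Φ h, Derivation.leibniz, map_add, smul_eq_mul, map_mul,
    Pi.add_apply, Pi.smul_apply]
  ring

lemma xv_le (ha : ∀ x, ‖a x‖₊ ≤ 1) (y : κ) (i : Fin Φ.N) : ‖xv Φ a i y‖₊ ≤ linMass Φ y i := by
  classical
  induction i using Pool.Agent.W463.CT.node_induction Φ with
  | hvar i x h =>
    rw [xv, value_var Φ h, linMass_var Φ y h]
    rcases x with x | x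
    · rw [pderiv_X_of_ne (by simp)]
      simp
    · by_cases hy : x = y
      · subst hy; simp
      · have h1 : (Sum.inr x : α ⊕ κ) ≠ Sum.inr y := fun h => hy (Sum.inr_injective h)
        rw [pderiv_X_of_ne h1]
        simp
  | hconst i c h => rw [xv, value_const Φ h, linMass_const Φ y h, pderiv_C]; simp
  | hadd i l r h hl hr =>
    rw [xv_add Φ a h, linMass_add Φ y h, Pi.add_apply]
    exact (nnnorm_add_le _ _).trans (add_le_add hl hr)
  | hmul i l r h hl hr =>
    rw [xv_mul Φ a h, linMass_mul Φ y h, Pi.add_apply, Pi.smul_apply, Pi.smul_apply]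
    refine (nnnorm_add_le _ _).trans ?_
    rw [nnnorm_smul, nnnorm_smul, mul_comm ‖cv Φ a r‖₊]
    exact add_le_add (mul_le_mul' hl (cv_le Φ a ha r)) (mul_le_mul' (cv_le Φ a ha l) hr)

/-- The gates both of whose inputs contain terms which are linear in the variables `Sum.inr y`. -/
noncomputable def joinGates (Φ : Circuit ℂ (α ⊕ κ)) : Finset (Fin Φ.N) := by
  classical exact Finset.univ.filter (fun i => ∃ l r, (Φ.node i = Node.add l r ∨
    Φ.node i = Node.mul l r) ∧ (∃ y, linMass Φ y l ≠ 0) ∧ ∃ y, linMass Φ y r ≠ 0)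

lemma mem_joinGates (i : Fin Φ.N) : i ∈ joinGates Φ ↔ ∃ l r, (Φ.node i = Node.add l r ∨
    Φ.node i = Node.mul l r) ∧ (∃ y, linMass Φ y l ≠ 0) ∧ ∃ y, linMass Φ y r ≠ 0 := by
  classical
  simp [joinGates]

variable [Fintype κ] [DecidableEq κ]

/-- The largest mass. -/
noncomputable def pmax (i : Fin Φ.N) : ℝ≥0 := Finset.univ.sup (fun y => linMass Φ y i)

omit [DecidableEq κ] in
lemma linMass_le_pmax (y : κ) (i : Fin Φ.N) : linMass Φ y i ≤ pmax Φ i :=
  Finset.le_sup (f := fun y => linMass Φ y i) (Finset.mem_univ y)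

/-- The available vectors. -/
def av (t : ℕ) : Set ((κ → ℂ) × ℝ≥0) :=
  units ∪ {z | ∃ i : Fin Φ.N, i.1 < t ∧ z = (xv Φ a i, pmax Φ i)}

/-- The number of joining gates before `t`. -/
noncomputable def gb (t : ℕ) : ℕ := by
  classical exact (Finset.univ.filter (fun i : Fin Φ.N => i.1 < t ∧ i ∈ joinGates Φ)).card

omit [Fintype κ] [DecidableEq κ] in
/-- A node without linear terms has the zero vector. -/
lemma xv_eq_zero (ha : ∀ x, ‖a x‖₊ ≤ 1) (i : Fin Φ.N) (h : ∀ y, linMass Φ y i = 0) :
    xv Φ a i = 0 := by
  funext y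
  have h1 := xv_le Φ a ha y i
  rw [h y] at h1
  simpa using h1

theorem good_av (ha : ∀ x, ‖a x‖₊ ≤ 1) (t : ℕ) (ht : t ≤ Φ.N) :
    Good ((2 : ℝ≥0) ^ gb Φ t) (av Φ a t) := by
  classical
  induction t with
  | zero =>
    refine good_units.mono (one_le_pow₀ (by norm_num)) ?_
    rintro z (h | ⟨i, hi, _⟩)
    · exact h
    · exact absurd hi (by omega)
  | succ t ih =>
    have ih' := ih (by omega)
    set v : Fin Φ.N := ⟨t, by omega⟩ with hv
    have hins : av Φ a (t + 1) ⊆ insert (xv Φ a v, pmax Φ v) (av Φ a t) := by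
      rintro z (h | ⟨i, hi, hz⟩)
      · exact Or.inr (Or.inl h)
      · rcases Nat.lt_succ_iff_lt_or_eq.mp hi with h | h
        · exact Or.inr (Or.inr ⟨i, h, hz⟩)
        · have : i = v := Fin.ext h
          left
          rw [hz, this]
    have hmemav : ∀ i : Fin Φ.N, i.1 < t → (xv Φ a i, pmax Φ i) ∈ av Φ a t :=
      fun i hi => Or.inr ⟨i, hi, rfl⟩
    have hgb : gb Φ t ≤ gb Φ (t + 1) := by
      unfold gb
      apply Finset.card_le_card
      intro i hi
      rw [Finset.mem_filter] at hi ⊢
      exact ⟨hi.1, by omega, hi.2.2⟩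
    have hgate : v ∈ joinGates Φ → gb Φ t + 1 ≤ gb Φ (t + 1) := by
      intro hg
      have h1 : insert v (Finset.univ.filter (fun i : Fin Φ.N => i.1 < t ∧ i ∈ joinGates Φ)) ⊆
          Finset.univ.filter (fun i : Fin Φ.N => i.1 < t + 1 ∧ i ∈ joinGates Φ) := by
        intro i hi
        rw [Finset.mem_insert] at hi
        rcases hi with rfl | hi
        · rw [Finset.mem_filter]
          exact ⟨Finset.mem_univ _, by simp [hv], hg⟩
        · rw [Finset.mem_filter] at hi ⊢
          exact ⟨hi.1, by omega, hi.2.2⟩
      have h2 := Finset.card_le_card h1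
      rw [Finset.card_insert_of_notMem] at h2
      · exact h2
      · rw [Finset.mem_filter]
        rintro ⟨_, h3, _⟩
        simp [hv] at h3
    cases hnode : Φ.node v with
    | var x =>
      have hC : (2 : ℝ≥0) ^ gb Φ t ≤ 2 ^ gb Φ (t + 1) := pow_le_pow_right₀ (by norm_num) hgb
      rcases x with x | y
      · have hx : xv Φ a v = 0 := by
          funext y
          rw [xv, value_var Φ hnode, pderiv_X_of_ne (by simp)]
          simp
        have h1 := (ih'.insert_zero (pmax Φ v)).mono hC le_rfl
        refine h1.mono le_rfl ?_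
        rw [← hx]
        exact hins
      · have hx : xv Φ a v = Pi.single y 1 := by
          funext y'
          rw [xv, value_var Φ hnode]
          by_cases hy : y' = y
          · subst hy; simp
          · have h1 : (Sum.inr y : α ⊕ κ) ≠ Sum.inr y' := fun h => hy (Sum.inr_injective h).symm
            rw [pderiv_X_of_ne h1, Pi.single_eq_of_ne hy]
            simp
        have hp : 1 ≤ pmax Φ v := by
          refine le_trans ?_ (linMass_le_pmax Φ y v)
          rw [linMass_var Φ y hnode]
          simp
        -- the new pair has a weight which is at least one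
        intro z p hz
        have hz' : ∀ j, (z j, min (p j) (if (z j, p j) ∈ av Φ a t then p j else 1)) ∈
            av Φ a t := by
          intro j
          by_cases hj : (z j, p j) ∈ av Φ a t
          · rw [if_pos hj, min_self]; exact hj
          · rw [if_neg hj]
            rcases hins (hz j) with h2 | h2
            · have e1 : z j = Pi.single y 1 := by
                rw [← hx]; exact congrArg Prod.fst h2
              have e2 : p j = pmax Φ v := congrArg Prod.snd h2
              rw [e2, min_eq_right hp, e1]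
              exact Or.inl ⟨y, rfl⟩
            · exact absurd h2 hj
        refine (ih' z _ hz').trans ?_
        refine mul_le_mul' hC ?_
        exact Finset.prod_le_prod' fun j _ => min_le_left _ _
    | const c =>
      have hC : (2 : ℝ≥0) ^ gb Φ t ≤ 2 ^ gb Φ (t + 1) := pow_le_pow_right₀ (by norm_num) hgb
      have hx : xv Φ a v = 0 := by
        funext y
        rw [xv, value_const Φ hnode, pderiv_C]
        simp
      have h1 := (ih'.insert_zero (pmax Φ v)).mono hC le_rfl
      refine h1.mono le_rfl ?_
      rw [← hx]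
      exact hins
    | add l r =>
      have hl : l.1 < t := Φ.lt v l false (by rw [hnode]; rfl)
      have hr : r.1 < t := Φ.lt v r true (by rw [hnode]; rfl)
      have hC : (2 : ℝ≥0) ^ gb Φ t ≤ 2 ^ gb Φ (t + 1) := pow_le_pow_right₀ (by norm_num) hgb
      have hpl : ‖(1 : ℂ)‖₊ * pmax Φ l ≤ pmax Φ v := by
        rw [nnnorm_one, one_mul]
        refine Finset.sup_le fun y _ => ?_
        refine le_trans ?_ (linMass_le_pmax Φ y v)
        rw [linMass_add Φ y hnode]
        exact le_self_add
      have hpr : ‖(1 : ℂ)‖₊ * pmax Φ r ≤ pmax Φ v := by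
        rw [nnnorm_one, one_mul]
        refine Finset.sup_le fun y _ => ?_
        refine le_trans ?_ (linMass_le_pmax Φ y v)
        rw [linMass_add Φ y hnode]
        exact le_add_self
      by_cases hjl : ∃ y, linMass Φ y l ≠ 0
      · by_cases hjr : ∃ y, linMass Φ y r ≠ 0
        · have h1 := ih'.insert_comb (hmemav l hl) (hmemav r hr) hpl hpr
          refine h1.mono ?_ ?_
          · rw [← pow_succ']
            exact pow_le_pow_right₀ (by norm_num)
              (hgate ((mem_joinGates Φ v).mpr ⟨l, r, Or.inl hnode, hjl, hjr⟩))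
          · rw [one_smul, one_smul, ← xv_add Φ a hnode]
            exact hins
        · push Not at hjr
          have h1 := (ih'.insert_smul (hmemav l hl) hpl).mono hC le_rfl
          refine h1.mono le_rfl ?_
          rw [one_smul]
          have e : xv Φ a v = xv Φ a l := by
            rw [xv_add Φ a hnode, xv_eq_zero Φ a ha r hjr, add_zero]
          rw [← e]
          exact hins
      · push Not at hjl
        have h1 := (ih'.insert_smul (hmemav r hr) hpr).mono hC le_rfl
        refine h1.mono le_rfl ?_
        rw [one_smul]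
        have e : xv Φ a v = xv Φ a r := by
          rw [xv_add Φ a hnode, xv_eq_zero Φ a ha l hjl, zero_add]
        rw [← e]
        exact hins
    | mul l r =>
      have hl : l.1 < t := Φ.lt v l false (by rw [hnode]; rfl)
      have hr : r.1 < t := Φ.lt v r true (by rw [hnode]; rfl)
      have hC : (2 : ℝ≥0) ^ gb Φ t ≤ 2 ^ gb Φ (t + 1) := pow_le_pow_right₀ (by norm_num) hgb
      have hpl : ‖cv Φ a r‖₊ * pmax Φ l ≤ pmax Φ v := by
        refine (mul_le_mul' (cv_le Φ a ha r) le_rfl).trans ?_
        rw [pmax, NNReal.mul_finset_sup]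
        refine Finset.sup_le fun y _ => ?_
        refine le_trans ?_ (linMass_le_pmax Φ y v)
        rw [linMass_mul Φ y hnode, mul_comm]
        exact le_self_add
      have hpr : ‖cv Φ a l‖₊ * pmax Φ r ≤ pmax Φ v := by
        refine (mul_le_mul' (cv_le Φ a ha l) le_rfl).trans ?_
        rw [pmax, NNReal.mul_finset_sup]
        refine Finset.sup_le fun y _ => ?_
        refine le_trans ?_ (linMass_le_pmax Φ y v)
        rw [linMass_mul Φ y hnode]
        exact le_add_self
      by_cases hjl : ∃ y, linMass Φ y l ≠ 0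
      · by_cases hjr : ∃ y, linMass Φ y r ≠ 0
        · have h1 := ih'.insert_comb (hmemav l hl) (hmemav r hr) hpl hpr
          refine h1.mono ?_ ?_
          · rw [← pow_succ']
            exact pow_le_pow_right₀ (by norm_num)
              (hgate ((mem_joinGates Φ v).mpr ⟨l, r, Or.inr hnode, hjl, hjr⟩))
          · rw [← xv_mul Φ a hnode]
            exact hins
        · push Not at hjr
          have h1 := (ih'.insert_smul (hmemav l hl) hpl).mono hC le_rfl
          refine h1.mono le_rfl ?_
          have e : xv Φ a v = cv Φ a r • xv Φ a l := by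
            rw [xv_mul Φ a hnode, xv_eq_zero Φ a ha r hjr, smul_zero, add_zero]
          rw [← e]
          exact hins
      · push Not at hjl
        have h1 := (ih'.insert_smul (hmemav r hr) hpr).mono hC le_rfl
        refine h1.mono le_rfl ?_
        have e : xv Φ a v = cv Φ a l • xv Φ a r := by
          rw [xv_mul Φ a hnode, xv_eq_zero Φ a ha l hjl, smul_zero, zero_add]
        rw [← e]
        exact hins

/-- The determinant bound. -/
theorem det_le (ha : ∀ x, ‖a x‖₊ ≤ 1) (o : κ → Fin Φ.N) :
    ‖Matrix.det (Matrix.of fun j => xv Φ a (o j))‖₊ ≤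
      2 ^ (joinGates Φ).card * ∏ j, pmax Φ (o j) := by
  classical
  have h := good_av Φ a ha Φ.N le_rfl (fun j => xv Φ a (o j)) (fun j => pmax Φ (o j))
    (fun j => Or.inr ⟨o j, (o j).2, rfl⟩)
  have hs : gb Φ Φ.N = (joinGates Φ).card := by
    unfold gb
    congr 1
    ext i
    simp
  rw [hs] at h
  exact h

end point

end Pool.Agent.W463.VB
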