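import Mathlib
import Pool.Agent.W463.VB.Lin
import Pool.Agent.W463.VB.Dft

set_option autoImplicit false

/-! # Matrix multiplication -/

namespace Pool.Agent.W463.VB

open Finset MvPolynomial
open scoped NNReal Kronecker
open Pool.Agent.H567.Nec Pool.Agent.H691R2.MM

/-- The variables of two `m × m` matrices. -/
abbrev MV (m : ℕ) : Type := (Fin m × Fin m) ⊕ (Fin m × Fin m)

theorem mm_bound (m : ℕ) (hm : 1 ≤ m) (Φ : Circuit ℂ (MV m)) (o : Fin m → Fin m → Fin Φ.N)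
    (ho : ∀ i l, Φ.value (o i l) = ∑ j, X (Sum.inl (i, j)) * X (Sum.inr (j, l)))
    (K : Fin m → Fin m → ℝ) (hK : ∀ i l y, (linMass Φ y (o i l) : ℝ) ≤ K i l) :
    (m : ℝ) ^ (m ^ 2) ≤ 4 ^ (joinGates Φ).card * (∏ i, ∏ l, K i l) ^ 2 := by
  classical
  obtain ⟨A, hA1, hA2⟩ := exists_flat m hm
  set a : Fin m × Fin m → ℂ := fun x => A x.1 x.2 with ha
  have ha1 : ∀ x, ‖a x‖₊ ≤ 1 := by
    intro x
    rw [← NNReal.coe_le_coe, coe_nnnorm, NNReal.coe_one]
    exact (hA1 _ _).le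
  have hdet := det_le Φ a ha1 (fun x : Fin m × Fin m => o x.1 x.2)
  have hM : (Matrix.of fun x : Fin m × Fin m => xv Φ a (o x.1 x.2)) =
      A ⊗ₖ (1 : Matrix (Fin m) (Fin m) ℂ) := by
    ext x y
    rw [Matrix.of_apply, Matrix.kroneckerMap_apply, xv, ho, map_sum, map_sum]
    have e1 : ∀ j : Fin m, eval (pt a) (pderiv (Sum.inr y)
        (X (Sum.inl (x.1, j)) * X (Sum.inr (j, x.2)) : MvPolynomial (MV m) ℂ)) =
        if j = y.1 then A x.1 j * (1 : Matrix (Fin m) (Fin m) ℂ) x.2 y.2 else 0 := by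
      intro j
      rw [Derivation.leibniz, pderiv_X_of_ne (show (Sum.inl (x.1, j) : MV m) ≠ Sum.inr y by simp),
        smul_zero, add_zero, smul_eq_mul, map_mul, eval_X]
      have e2 : (pt a (Sum.inl (x.1, j) : MV m)) = A x.1 j := rfl
      rw [e2]
      by_cases hj : j = y.1
      · rw [if_pos hj, Matrix.one_apply]
        by_cases hl : x.2 = y.2
        · have e3 : ((j, x.2) : Fin m × Fin m) = y := Prod.ext hj hl
          rw [if_pos hl, e3, pderiv_X_self, map_one]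
        · rw [if_neg hl, pderiv_X_of_ne, map_zero]
          intro h
          have h' := congrArg Prod.snd (Sum.inr.inj h)
          exact hl h'
      · rw [if_neg hj, pderiv_X_of_ne, map_zero, mul_zero]
        intro h
        have h' := congrArg Prod.fst (Sum.inr.inj h)
        exact hj h'
    rw [Finset.sum_congr rfl fun j _ => e1 j, Finset.sum_ite_eq' Finset.univ y.1, if_pos
      (Finset.mem_univ _)]
  rw [hM, Matrix.det_kronecker, Matrix.det_one, one_pow, mul_one, Fintype.card_fin,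
    ← NNReal.coe_le_coe, coe_nnnorm, norm_pow] at hdet
  push_cast at hdet
  have hprod : ∏ x : Fin m × Fin m, (pmax Φ (o x.1 x.2) : ℝ) ≤ ∏ i, ∏ l, K i l := by
    rw [Fintype.prod_prod_type]
    refine Finset.prod_le_prod (fun i _ => Finset.prod_nonneg fun l _ => NNReal.coe_nonneg _)
      fun i _ => Finset.prod_le_prod (fun l _ => NNReal.coe_nonneg _) fun l _ => ?_
    -- the maximum is attained
    have hne : (Finset.univ : Finset (Fin m × Fin m)).Nonempty := ⟨(i, l), Finset.mem_univ _⟩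
    obtain ⟨y, _, hy⟩ := Finset.exists_mem_eq_sup Finset.univ hne
      (fun y => linMass Φ y (o i l))
    rw [pmax, hy]
    exact hK i l y
  have h0 : (0 : ℝ) ≤ ∏ x : Fin m × Fin m, (pmax Φ (o x.1 x.2) : ℝ) :=
    Finset.prod_nonneg fun x _ => NNReal.coe_nonneg _
  have h1 : ‖A.det‖ ^ m ≤ 2 ^ (joinGates Φ).card * ∏ i, ∏ l, K i l :=
    hdet.trans (mul_le_mul_of_nonneg_left hprod (by positivity))
  have h2 : (‖A.det‖ ^ m) ^ 2 ≤ (2 ^ (joinGates Φ).card * ∏ i, ∏ l, K i l) ^ 2 :=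
    pow_le_pow_left₀ (by positivity) h1 2
  calc (m : ℝ) ^ (m ^ 2) = (‖A.det‖ ^ m) ^ 2 := by
        rw [← pow_mul, mul_comm m 2, pow_mul, hA2, ← pow_mul, sq]
    _ ≤ _ := h2
    _ = _ := by
        rw [mul_pow, ← pow_mul, mul_comm _ 2, pow_mul]
        norm_num

/-- The logarithmic form. -/
theorem mm_log (m : ℕ) (hm : 2 ≤ m) (Φ : Circuit ℂ (MV m)) (o : Fin m → Fin m → Fin Φ.N)
    (ho : ∀ i l, Φ.value (o i l) = ∑ j, X (Sum.inl (i, j)) * X (Sum.inr (j, l)))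
    (ε : ℝ) (hK : ∀ i l y, (linMass Φ y (o i l) : ℝ) ≤ (m : ℝ) ^ (1 / 2 - ε)) :
    ε * m ^ 2 * Real.logb 2 m ≤ (joinGates Φ).card := by
  have h := mm_bound m (by omega) Φ o ho (fun _ _ => (m : ℝ) ^ (1 / 2 - ε)) hK
  have hm0 : (0 : ℝ) < m := by
    have : 0 < m := by omega
    exact_mod_cast this
  have hm1 : (1 : ℝ) < m := by exact_mod_cast (by omega : 1 < m)
  simp only [Finset.prod_const, Finset.card_univ, Fintype.card_fin] at h
  have e1 : ((((m : ℝ) ^ (1 / 2 - ε)) ^ m) ^ m) ^ 2 = (m : ℝ) ^ ((1 - 2 * ε) * m ^ 2) := by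
    rw [← Real.rpow_natCast, ← Real.rpow_natCast, ← Real.rpow_natCast, ← Real.rpow_mul hm0.le,
      ← Real.rpow_mul hm0.le, ← Real.rpow_mul hm0.le]
    congr 1
    push_cast
    ring
  rw [e1] at h
  have e2 : (m : ℝ) ^ (m ^ 2) = (m : ℝ) ^ ((1 - 2 * ε) * m ^ 2) * (m : ℝ) ^ (2 * ε * m ^ 2) := by
    rw [← Real.rpow_add hm0, ← Real.rpow_natCast]
    congr 1
    push_cast
    ring
  rw [e2, mul_comm] at h
  have hpos : 0 < (m : ℝ) ^ ((1 - 2 * ε) * (m : ℝ) ^ 2) := Real.rpow_pos_of_pos hm0 _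
  have h3 : (m : ℝ) ^ (2 * ε * m ^ 2) ≤ 4 ^ (joinGates Φ).card :=
    le_of_mul_le_mul_right h hpos
  have h4 := Real.logb_le_logb_of_le (b := 2) (by norm_num) (Real.rpow_pos_of_pos hm0 _) h3
  rw [Real.logb_rpow_eq_mul_logb_of_pos hm0, Real.logb_pow] at h4
  have h5 : Real.logb 2 4 = 2 := by
    rw [show (4 : ℝ) = 2 ^ (2 : ℝ) by norm_num, Real.logb_rpow (by norm_num) (by norm_num)]
  rw [h5] at h4
  linarith

end Pool.Agent.W463.VB
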